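import Pool.Agent.W184.NV.Defs

set_option autoImplicit false

namespace Pool.Agent.W503.NV

open MeasureTheory Filter Topology
open Pool.Agent.W184.NV

section
variable (h1 : ∀ θ : Ci, ‖ze θ‖ = 1) (h2 : Continuous ze)
  (h3 : ∀ j k : ℕ, ∫ θ, ze θ ^ j * (starRingEnd ℂ) (ze θ) ^ k ∂mu = if j = k then 1 else 0)
  (c : ℂ) (hc : ‖c‖ = 1)

include h2 in
lemma int_cont (g : ℂ → ℝ) (hg : Continuous g) : Integrable (fun θ => g (ze θ * c)) mu := by
  have hcont : Continuous (fun θ => g (ze θ * c)) := hg.comp (h2.mul continuous_const)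
  obtain ⟨B, hB⟩ := isCompact_univ.exists_bound_of_continuousOn (f := fun θ => g (ze θ * c))
    hcont.continuousOn
  exact Integrable.of_bound hcont.aestronglyMeasurable B (ae_of_all _ fun θ => hB θ (Set.mem_univ _))

include h2 h3 in
lemma int_pow (k : ℕ) (hk : 1 ≤ k) : ∫ θ, ((ze θ * c) ^ k).re ∂mu = 0 := by
  have hcont : Continuous (fun θ => (ze θ * c) ^ k) := (h2.mul continuous_const).pow k
  have hint : Integrable (fun θ => (ze θ * c) ^ k) mu := by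
    obtain ⟨B, hB⟩ := isCompact_univ.exists_bound_of_continuousOn (f := fun θ => (ze θ * c) ^ k)
      hcont.continuousOn
    exact Integrable.of_bound hcont.aestronglyMeasurable B
      (ae_of_all _ fun θ => hB θ (Set.mem_univ _))
  have e := Complex.reCLM.integral_comp_comm hint
  have e2 : ∫ θ, (ze θ * c) ^ k ∂mu = 0 := by
    have := h3 k 0
    rw [if_neg (by omega)] at this
    simp only [pow_zero, mul_one] at this
    simp only [mul_pow]
    rw [integral_mul_const, this, zero_mul]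
  rw [e2, map_zero] at e
  exact e

include h1 hc in
lemma cheb (θ : Ci) :
    ((ze θ * c) ^ 2).re = 2 * (ze θ * c).re ^ 2 - 1 ∧
    ((ze θ * c) ^ 3).re = 4 * (ze θ * c).re ^ 3 - 3 * (ze θ * c).re ∧
    ((ze θ * c) ^ 4).re = 8 * (ze θ * c).re ^ 4 - 8 * (ze θ * c).re ^ 2 + 1 ∧
    ((ze θ * c) ^ 5).re = 16 * (ze θ * c).re ^ 5 - 20 * (ze θ * c).re ^ 3 +
      5 * (ze θ * c).re := by
  have hn : ‖ze θ * c‖ = 1 := by rw [norm_mul, h1, hc, one_mul]
  generalize ze θ * c = z at hn ⊢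
  have hz : z.re ^ 2 + z.im ^ 2 = 1 := by
    have := Complex.sq_norm z
    rw [hn, Complex.normSq_apply] at this
    linarith
  have h2r : (z ^ 2).re = z.re * z.re - z.im * z.im := by rw [pow_two, Complex.mul_re]
  have h2i : (z ^ 2).im = z.re * z.im + z.im * z.re := by rw [pow_two, Complex.mul_im]
  have h3r : (z ^ 3).re = (z ^ 2).re * z.re - (z ^ 2).im * z.im := by rw [pow_succ, Complex.mul_re]
  have h3i : (z ^ 3).im = (z ^ 2).re * z.im + (z ^ 2).im * z.re := by rw [pow_succ, Complex.mul_im]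
  have h4r : (z ^ 4).re = (z ^ 3).re * z.re - (z ^ 3).im * z.im := by rw [pow_succ, Complex.mul_re]
  have h4i : (z ^ 4).im = (z ^ 3).re * z.im + (z ^ 3).im * z.re := by rw [pow_succ, Complex.mul_im]
  have h5r : (z ^ 5).re = (z ^ 4).re * z.re - (z ^ 4).im * z.im := by rw [pow_succ, Complex.mul_re]
  have hy : z.im ^ 2 = 1 - z.re ^ 2 := by linarith
  have e2 : (z ^ 2).re = 2 * z.re ^ 2 - 1 := by rw [h2r]; linear_combination (-1 : ℝ) * hy
  have e2i : (z ^ 2).im = 2 * z.re * z.im := by rw [h2i]; ring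
  have e3 : (z ^ 3).re = 4 * z.re ^ 3 - 3 * z.re := by
    rw [h3r, e2, e2i]; linear_combination (-2 * z.re) * hy
  have e3i : (z ^ 3).im = (4 * z.re ^ 2 - 1) * z.im := by rw [h3i, e2, e2i]; ring
  have e4 : (z ^ 4).re = 8 * z.re ^ 4 - 8 * z.re ^ 2 + 1 := by
    rw [h4r, e3, e3i]; linear_combination (-(4 * z.re ^ 2 - 1)) * hy
  have e4i : (z ^ 4).im = (8 * z.re ^ 3 - 4 * z.re) * z.im := by rw [h4i, e3, e3i]; ring
  have e5 : (z ^ 5).re = 16 * z.re ^ 5 - 20 * z.re ^ 3 + 5 * z.re := by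
    rw [h5r, e4, e4i]; linear_combination (-(8 * z.re ^ 3 - 4 * z.re)) * hy
  exact ⟨e2, e3, e4, e5⟩

include h2 h3 in
lemma drop (k : ℕ) (hk : 1 ≤ k) (a : ℝ) (G : Ci → ℝ) (hG : Integrable G mu) :
    ∫ θ, (a * ((ze θ * c) ^ k).re + G θ) ∂mu = ∫ θ, G θ ∂mu := by
  have ik : Integrable (fun θ => a * ((ze θ * c) ^ k).re) mu :=
    (int_cont h2 c (fun z => (z ^ k).re) (Complex.continuous_re.comp (continuous_pow k))).const_mul a
  rw [integral_add ik hG, integral_const_mul, int_pow h2 h3 c k hk, mul_zero, zero_add]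

include h1 h2 h3 hc in
lemma poly5 (c0 c1 c2 c3 c4 c5 : ℝ) :
    ∫ θ, (c0 + c1 * (ze θ * c).re + c2 * (ze θ * c).re ^ 2 + c3 * (ze θ * c).re ^ 3 +
      c4 * (ze θ * c).re ^ 4 + c5 * (ze θ * c).re ^ 5) ∂mu = c0 + c2 / 2 + 3 * c4 / 8 := by
  have e : ∀ θ, c0 + c1 * (ze θ * c).re + c2 * (ze θ * c).re ^ 2 + c3 * (ze θ * c).re ^ 3 +
      c4 * (ze θ * c).re ^ 4 + c5 * (ze θ * c).re ^ 5 =
      (c1 + 3 * c3 / 4 + 10 * c5 / 16) * ((ze θ * c) ^ 1).re +
        ((c2 / 2 + c4 / 2) * ((ze θ * c) ^ 2).re + ((c3 / 4 + 5 * c5 / 16) * ((ze θ * c) ^ 3).re +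
        (c4 / 8 * ((ze θ * c) ^ 4).re + (c5 / 16 * ((ze θ * c) ^ 5).re +
          (c0 + c2 / 2 + 3 * c4 / 8))))) := by
    intro θ
    obtain ⟨e2, e3, e4, e5⟩ := cheb h1 c hc θ
    rw [e2, e3, e4, e5, pow_one]
    ring
  simp only [e]
  have ik : ∀ k : ℕ, ∀ a : ℝ, Integrable (fun θ => a * ((ze θ * c) ^ k).re) mu := fun k a =>
    (int_cont h2 c (fun z => (z ^ k).re) (Complex.continuous_re.comp (continuous_pow k))).const_mul a
  have j5 : Integrable (fun _ : Ci => c0 + c2 / 2 + 3 * c4 / 8) mu := integrable_const _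
  have j4 : Integrable (fun θ => c5 / 16 * ((ze θ * c) ^ 5).re + (c0 + c2 / 2 + 3 * c4 / 8)) mu :=
    (ik 5 _).add j5
  have j3 : Integrable (fun θ => c4 / 8 * ((ze θ * c) ^ 4).re + (c5 / 16 * ((ze θ * c) ^ 5).re +
    (c0 + c2 / 2 + 3 * c4 / 8))) mu := (ik 4 _).add j4
  have j2 : Integrable (fun θ => (c3 / 4 + 5 * c5 / 16) * ((ze θ * c) ^ 3).re +
    (c4 / 8 * ((ze θ * c) ^ 4).re + (c5 / 16 * ((ze θ * c) ^ 5).re +
    (c0 + c2 / 2 + 3 * c4 / 8)))) mu := (ik 3 _).add j3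
  have j1 : Integrable (fun θ => (c2 / 2 + c4 / 2) * ((ze θ * c) ^ 2).re +
    ((c3 / 4 + 5 * c5 / 16) * ((ze θ * c) ^ 3).re +
    (c4 / 8 * ((ze θ * c) ^ 4).re + (c5 / 16 * ((ze θ * c) ^ 5).re +
    (c0 + c2 / 2 + 3 * c4 / 8))))) mu := (ik 2 _).add j2
  refine (drop h2 h3 c 1 (by norm_num) _ _ j1).trans ?_
  refine (drop h2 h3 c 2 (by norm_num) _ _ j2).trans ?_
  refine (drop h2 h3 c 3 (by norm_num) _ _ j3).trans ?_
  refine (drop h2 h3 c 4 (by norm_num) _ _ j4).trans ?_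
  refine (drop h2 h3 c 5 (by norm_num) _ _ j5).trans ?_
  simp

end

lemma num_m {r a m : ℝ} (ha0 : 3 / 4 ≤ a) (ha1 : a ≤ 1)
    (hm : m = 2 * r ^ 2 * a / (1 + r ^ 2)) : 0 ≤ m ∧ m ≤ 2 * r ^ 2 := by
  have hr3 : 0 < 1 + r ^ 2 := by positivity
  constructor
  · rw [hm]; positivity
  · rw [hm, div_le_iff₀ hr3]
    have h5 : 2 * r ^ 2 * a ≤ 2 * r ^ 2 * 1 := mul_le_mul_of_nonneg_left ha1 (by positivity)
    have h6 : 0 ≤ 2 * r ^ 2 * r ^ 2 := by positivity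
    linarith

lemma num_lower {r a b m : ℝ} (hr12 : r ^ 2 ≤ 1 / 12) (ha0 : 3 / 4 ≤ a)
    (ha1 : a ≤ 1) (hb1 : |b| ≤ 1) (hm : m = 2 * r ^ 2 * a / (1 + r ^ 2)) :
    r ^ 2 / 2 ≤ 2 * r ^ 2 * a ^ 2 + r ^ 4 * b ^ 2 / 2 - 2 * r ^ 4 * a * b / (1 + r ^ 2) - m ^ 2 := by
  obtain ⟨hm0, hm2⟩ := num_m (r := r) ha0 ha1 hm
  have hr3 : 0 < 1 + r ^ 2 := by positivity
  have e5 : 2 * r ^ 4 * a * b / (1 + r ^ 2) = r ^ 2 * b * m := by
    rw [hm]; field_simp
  have e6 : r ^ 2 * b * m ≤ 2 * r ^ 4 := by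
    have h6 : b * m ≤ 1 * (2 * r ^ 2) := by
      calc b * m ≤ |b| * m := mul_le_mul_of_nonneg_right (le_abs_self b) hm0
        _ ≤ 1 * (2 * r ^ 2) := mul_le_mul hb1 hm2 hm0 zero_le_one
    have h7 : r ^ 2 * (b * m) ≤ r ^ 2 * (1 * (2 * r ^ 2)) :=
      mul_le_mul_of_nonneg_left h6 (sq_nonneg r)
    linarith
  have e7 : m ^ 2 ≤ 4 * r ^ 4 := by
    have := pow_le_pow_left₀ hm0 hm2 2
    linarith
  have e8 : 9 / 16 ≤ a ^ 2 := by nlinarith
  have e9 : 2 * r ^ 2 * (9 / 16) ≤ 2 * r ^ 2 * a ^ 2 :=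
    mul_le_mul_of_nonneg_left e8 (by positivity)
  have e10 : r ^ 4 ≤ r ^ 2 * (1 / 12) := by
    have : r ^ 4 = r ^ 2 * r ^ 2 := by ring
    rw [this]
    exact mul_le_mul_of_nonneg_left hr12 (sq_nonneg r)
  have e11 : 0 ≤ r ^ 4 * b ^ 2 / 2 := by positivity
  rw [e5]
  have : 0 ≤ r ^ 2 := by positivity
  linarith

lemma num_bound {r a b m x : ℝ} (hr0 : 0 < r) (hr1 : r ≤ 1) (ha0 : 3 / 4 ≤ a)
    (ha1 : a ≤ 1) (hb1 : |b| ≤ 1) (hm : m = 2 * r ^ 2 * a / (1 + r ^ 2)) (hx : |x| ≤ 1) :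
    |r ^ 2 * b + 2 * r * a * x - 2 * r ^ 2 * b * x ^ 2 - m| ≤ 5 * r := by
  obtain ⟨hm0, hm2⟩ := num_m (r := r) ha0 ha1 hm
  have e1 : r ^ 2 * b + 2 * r * a * x - 2 * r ^ 2 * b * x ^ 2 - m =
    r ^ 2 * (b * (1 - 2 * x ^ 2)) + (2 * r * (a * x) - m) := by ring
  rw [e1]
  have hx2 : x ^ 2 ≤ 1 := by
    have := abs_le.1 hx
    nlinarith
  have h8 : |1 - 2 * x ^ 2| ≤ 1 := by
    rw [abs_le]; constructor <;> nlinarith [sq_nonneg x]
  have h9 : |r ^ 2 * (b * (1 - 2 * x ^ 2))| ≤ r ^ 2 := by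
    rw [abs_mul, abs_mul, abs_of_nonneg (sq_nonneg r)]
    have : |b| * |1 - 2 * x ^ 2| ≤ 1 * 1 := mul_le_mul hb1 h8 (abs_nonneg _) zero_le_one
    nlinarith [sq_nonneg r]
  have h10 : |a * x| ≤ 1 := by
    rw [abs_mul, abs_of_nonneg (by linarith)]
    nlinarith [abs_nonneg x]
  have h11 := abs_le.1 h10
  have h12 : |2 * r * (a * x) - m| ≤ 2 * r + 2 * r ^ 2 := by
    have h14 : 2 * r * (-1) ≤ 2 * r * (a * x) := mul_le_mul_of_nonneg_left h11.1 (by linarith)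
    have h15 : 2 * r * (a * x) ≤ 2 * r * 1 := mul_le_mul_of_nonneg_left h11.2 (by linarith)
    rw [abs_le]
    have := sq_nonneg r
    constructor <;> linarith
  have h13 : r ^ 2 ≤ r := by nlinarith
  calc _ ≤ |r ^ 2 * (b * (1 - 2 * x ^ 2))| + |2 * r * (a * x) - m| := abs_add_le _ _
    _ ≤ r ^ 2 + (2 * r + 2 * r ^ 2) := add_le_add h9 h12
    _ ≤ 5 * r := by linarith

theorem mom : S_Circ → S_Mom := by
  rintro ⟨h1, h2, h3⟩ p t η hp hp12 hη hηp
  have hp0 : (0 : ℝ) < p := by exact_mod_cast hp.pos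
  have hp12' : (12 : ℝ) ≤ p := by exact_mod_cast hp12
  -- the constants
  set c : ℂ := (p : ℂ) ^ (-((t : ℂ) * Complex.I)) with hcdef
  have hc : ‖c‖ = 1 := by
    rw [hcdef, Complex.norm_natCast_cpow_of_pos hp.pos]
    simp
  set r : ℝ := (p : ℝ) ^ (-(1 / 2) : ℝ) with hr
  have hr0 : 0 < r := Real.rpow_pos_of_pos hp0 _
  have hr2 : r ^ 2 = 1 / p := by
    rw [hr, ← Real.rpow_natCast, ← Real.rpow_mul hp0.le]
    norm_num
    rw [Real.rpow_neg_one]
  have hrs : r = 1 / √(p : ℝ) := by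
    rw [hr, Real.rpow_neg hp0.le, ← Real.sqrt_eq_rpow, one_div]
  have hr12 : r ^ 2 ≤ 1 / 12 := by
    rw [hr2]
    exact one_div_le_one_div_of_le (by norm_num) hp12'
  have hr1 : r ≤ 1 := by nlinarith
  set a : ℝ := Real.sinc (η * Real.log p) with ha
  set b : ℝ := Real.sinc (2 * η * Real.log p) with hb
  have hlog : 0 < Real.log p := Real.log_pos (by linarith)
  have hx : 0 < η * Real.log p := mul_pos hη hlog
  have ha1 : a ≤ 1 := Real.sinc_le_one _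
  have ha0 : 3 / 4 ≤ a := by
    rw [ha, Real.sinc_of_ne_zero hx.ne', le_div_iff₀ hx]
    have := Real.sin_gt_sub_cube hx
    have h4 : (η * Real.log p) ^ 3 ≤ η * Real.log p := by
      have : (η * Real.log p) ^ 2 ≤ 1 := by nlinarith
      nlinarith
    linarith
  have hb1 : |b| ≤ 1 := Real.abs_sinc_le_one _
  -- rewriting of the data
  have hLL : ∀ θ, LL η p (ze θ * c) = r ^ 2 * b + 2 * r * a * (ze θ * c).re -
      2 * r ^ 2 * b * (ze θ * c).re ^ 2 := by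
    intro θ
    unfold LL
    rw [(cheb h1 c hc θ).1, ← hr, ← ha, ← hb, ← hr2]
    ring
  have hm : 2 * a / ((p : ℝ) + 1) = 2 * r ^ 2 * a / (1 + r ^ 2) := by
    rw [hr2]
    field_simp
  have hx1 : ∀ θ, |(ze θ * c).re| ≤ 1 := by
    intro θ
    have h5 := Complex.abs_re_le_norm (ze θ * c)
    rw [norm_mul, h1, hc, one_mul] at h5
    exact h5
  have hdens : ∀ θ, ‖1 + ze θ * (p : ℂ) ^ (-(1 / 2 + t * Complex.I))‖ ^ 2 / (1 + 1 / (p : ℝ)) =
      (1 + r ^ 2 + 2 * r * (ze θ * c).re) / (1 + r ^ 2) := by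
    intro θ
    rw [← hr2]
    congr 1
    have e1 : (p : ℂ) ^ (-(1 / 2 + (t : ℂ) * Complex.I)) = (r : ℂ) * c := by
      rw [neg_add, Complex.cpow_add _ _ (by exact_mod_cast hp.ne_zero), ← hcdef, hr,
        Complex.ofReal_cpow hp0.le]
      push_cast
      rfl
    rw [e1]
    have e2 : ze θ * ((r : ℂ) * c) = (r : ℂ) * (ze θ * c) := by ring
    rw [e2]
    have hn : ‖ze θ * c‖ = 1 := by rw [norm_mul, h1, hc, one_mul]
    generalize ze θ * c = z at hn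
    have hz : z.re ^ 2 + z.im ^ 2 = 1 := by
      have := Complex.sq_norm z
      rw [hn, Complex.normSq_apply] at this
      linarith
    rw [Complex.sq_norm, Complex.normSq_apply]
    simp only [Complex.add_re, Complex.one_re, Complex.mul_re, Complex.ofReal_re,
      Complex.ofReal_im, zero_mul, sub_zero, Complex.add_im, Complex.one_im, Complex.mul_im,
      zero_add, add_zero]
    linear_combination r ^ 2 * hz
  have hd0 : ∀ θ, 0 ≤ (1 + r ^ 2 + 2 * r * (ze θ * c).re) / (1 + r ^ 2) := by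
    intro θ
    apply div_nonneg _ (by positivity)
    have := (abs_le.1 (hx1 θ)).1
    nlinarith [sq_nonneg (1 - r)]
  have hint : ∀ F : Ci → ℝ, ∫ θ, F θ ∂(nu p t) =
      ∫ θ, (1 + r ^ 2 + 2 * r * (ze θ * c).re) / (1 + r ^ 2) * F θ ∂mu := by
    intro F
    unfold nu
    simp only [hdens]
    rw [integral_withDensity_eq_integral_toReal_smul]
    · refine integral_congr_ae (ae_of_all _ fun θ => ?_)
      simp only [smul_eq_mul]
      rw [ENNReal.toReal_ofReal (hd0 θ)]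
    · apply ENNReal.measurable_ofReal.comp
      have : Continuous (fun θ => (1 + r ^ 2 + 2 * r * (ze θ * c).re) / (1 + r ^ 2)) := by
        refine Continuous.div_const ?_ _
        exact continuous_const.add (continuous_const.mul
          (Complex.continuous_re.comp (h2.mul continuous_const)))
      exact this.measurable
    · exact ae_of_all _ fun θ => ENNReal.ofReal_lt_top
  have hr3 : 0 < 1 + r ^ 2 := by positivity
  have E1 : ∫ θ, LL η p (ze θ * c) ∂(nu p t) = 2 * r ^ 2 * a / (1 + r ^ 2) := by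
    rw [hint]
    have := poly5 h1 h2 h3 c hc (r ^ 2 * b) ((2 * r * a * (1 + r ^ 2) + 2 * r * (r ^ 2 * b)) / (1 + r ^ 2))
      ((-2 * r ^ 2 * b * (1 + r ^ 2) + 2 * r * (2 * r * a)) / (1 + r ^ 2))
      (2 * r * (-2 * r ^ 2 * b) / (1 + r ^ 2)) 0 0
    refine Eq.trans ?_ (this.trans ?_)
    · refine integral_congr_ae (ae_of_all _ fun θ => ?_)
      simp only [hLL]
      field_simp
      ring
    · field_simp
      ring
  refine ⟨?_, ?_, ?_⟩
  · rw [E1, hm]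
  · rw [hm]
    set m : ℝ := 2 * r ^ 2 * a / (1 + r ^ 2) with hmdef
    have E2 : ∫ θ, (LL η p (ze θ * c) - m) ^ 2 ∂(nu p t) =
        2 * r ^ 2 * a ^ 2 + r ^ 4 * b ^ 2 / 2 - 2 * r ^ 4 * a * b / (1 + r ^ 2) - m ^ 2 := by
      rw [hint]
      -- (LL - m)^2 = q0 + q1 x + q2 x^2 + q3 x^3 + q4 x^4
      have := poly5 h1 h2 h3 c hc ((r ^ 2 * b - m) ^ 2)
        ((2 * (r ^ 2 * b - m) * (2 * r * a)) + 2 * r / (1 + r ^ 2) * (r ^ 2 * b - m) ^ 2)
        (((2 * r * a) ^ 2 + 2 * (r ^ 2 * b - m) * (-2 * r ^ 2 * b)) +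
          2 * r / (1 + r ^ 2) * (2 * (r ^ 2 * b - m) * (2 * r * a)))
        ((2 * (2 * r * a) * (-2 * r ^ 2 * b)) +
          2 * r / (1 + r ^ 2) * ((2 * r * a) ^ 2 + 2 * (r ^ 2 * b - m) * (-2 * r ^ 2 * b)))
        ((-2 * r ^ 2 * b) ^ 2 + 2 * r / (1 + r ^ 2) * (2 * (2 * r * a) * (-2 * r ^ 2 * b)))
        (2 * r / (1 + r ^ 2) * (-2 * r ^ 2 * b) ^ 2)
      refine Eq.trans ?_ (this.trans ?_)
      · refine integral_congr_ae (ae_of_all _ fun θ => ?_)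
        simp only [hLL]
        have e : (1 + r ^ 2 + 2 * r * (ze θ * c).re) / (1 + r ^ 2) =
          1 + 2 * r / (1 + r ^ 2) * (ze θ * c).re := by field_simp
        rw [e]
        ring
      · have e : m * (1 + r ^ 2) = 2 * r ^ 2 * a := by rw [hmdef]; field_simp
        have e2 : 2 * r / (1 + r ^ 2) * (2 * r * a) = 2 * m := by rw [hmdef]; field_simp
        have e3 : 2 * r / (1 + r ^ 2) * (2 * (2 * r * a) * (-2 * r ^ 2 * b)) =
          -8 * r ^ 4 * a * b / (1 + r ^ 2) * 2 := by field_simp; ring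
        have e4 : 2 * r / (1 + r ^ 2) * (2 * (r ^ 2 * b - m) * (2 * r * a)) =
          4 * (r ^ 2 * b - m) * m := by
          have : 2 * r / (1 + r ^ 2) * (2 * (r ^ 2 * b - m) * (2 * r * a)) =
            2 * (r ^ 2 * b - m) * (2 * r / (1 + r ^ 2) * (2 * r * a)) := by ring
          rw [this, e2]; ring
        have e5 : r ^ 2 * b * m = 2 * r ^ 4 * a * b / (1 + r ^ 2) := by
          rw [hmdef]; field_simp
        rw [e3, e4]
        have e6 : -8 * r ^ 4 * a * b / (1 + r ^ 2) * 2 = -8 * (r ^ 2 * b * m) := by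
          rw [e5]; ring
        rw [e6]
        have e7 : 2 * r ^ 4 * a * b / (1 + r ^ 2) = r ^ 2 * b * m := e5.symm
        rw [e7]
        ring
    rw [E2]
    have e12 : 1 / (2 * (p : ℝ)) = r ^ 2 / 2 := by rw [hr2]; field_simp
    rw [e12]
    exact num_lower hr12 ha0 ha1 hb1 hmdef
  · intro θ
    rw [hm, hLL]
    have h14 : 5 / √(p : ℝ) = 5 * r := by rw [hrs]; ring
    rw [h14]
    exact num_bound hr0 hr1 ha0 ha1 hb1 rfl (hx1 θ)

end Pool.Agent.W503.NV
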