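import Pool.Agent.W184.NV.Defs

set_option autoImplicit false

namespace Pool.Agent.W503.NV

open MeasureTheory Filter Topology
open Pool.Agent.W184.NV

lemma normsq {ι : Type} (s : Finset ι) (b : ι → ℂ) :
    ((‖∑ i ∈ s, b i‖ ^ 2 : ℝ) : ℂ) = ∑ i ∈ s, ∑ j ∈ s, b i * (starRingEnd ℂ) (b j) := by
  rw [Complex.ofReal_pow, ← Complex.mul_conj', map_sum, Finset.sum_mul_sum]

theorem planch : S_Planch := by
  intro ι s a x
  have hb : (-1 : ℂ).re < 0 := by norm_num
  have e1 : ∀ v : ℝ, ((‖∑ i ∈ s, a i * Real.exp (-(x i - v) ^ 2 / 2)‖ ^ 2 : ℝ) : ℂ) =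
      ∑ i ∈ s, ∑ j ∈ s, (a i * (starRingEnd ℂ) (a j)) *
        Complex.exp (-1 * (v : ℂ) ^ 2 + ((x i : ℂ) + x j) * v + (-((x i : ℂ) ^ 2 + (x j : ℂ) ^ 2) / 2)) := by
    intro v
    rw [normsq]
    refine Finset.sum_congr rfl fun i _ => Finset.sum_congr rfl fun j _ => ?_
    rw [map_mul, Complex.conj_ofReal]
    have : Complex.exp (-1 * (v : ℂ) ^ 2 + ((x i : ℂ) + x j) * v +
        (-((x i : ℂ) ^ 2 + (x j : ℂ) ^ 2) / 2)) =
        (Real.exp (-(x i - v) ^ 2 / 2) : ℂ) * (Real.exp (-(x j - v) ^ 2 / 2) : ℂ) := by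
      rw [Complex.ofReal_exp, Complex.ofReal_exp, ← Complex.exp_add]
      congr 1
      push_cast
      ring
    rw [this]
    ring
  have e2 : ∀ u : ℝ, ((‖∑ i ∈ s, a i * Complex.exp (-(Complex.I * (u * x i : ℝ)))‖ ^ 2 *
      Real.exp (-u ^ 2) : ℝ) : ℂ) =
      ∑ i ∈ s, ∑ j ∈ s, (a i * (starRingEnd ℂ) (a j)) *
        Complex.exp (-1 * (u : ℂ) ^ 2 + (-(Complex.I * ((x i : ℂ) - x j))) * u + 0) := by
    intro u
    rw [Complex.ofReal_mul, normsq, Finset.sum_mul]
    refine Finset.sum_congr rfl fun i _ => ?_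
    rw [Finset.sum_mul]
    refine Finset.sum_congr rfl fun j _ => ?_
    rw [map_mul, ← Complex.exp_conj, map_neg, map_mul, Complex.conj_I, Complex.conj_ofReal]
    have : Complex.exp (-1 * (u : ℂ) ^ 2 + (-(Complex.I * ((x i : ℂ) - x j))) * u + 0) =
        Complex.exp (-(Complex.I * (u * x i : ℝ))) * Complex.exp (-(-Complex.I * (u * x j : ℝ))) *
          (Real.exp (-u ^ 2) : ℂ) := by
      rw [Complex.ofReal_exp, ← Complex.exp_add, ← Complex.exp_add]
      congr 1
      push_cast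
      ring
    rw [this]
    ring
  have i1 : ∀ i ∈ s, ∀ j ∈ s, Integrable (fun v : ℝ => (a i * (starRingEnd ℂ) (a j)) *
      Complex.exp (-1 * (v : ℂ) ^ 2 + ((x i : ℂ) + x j) * v +
        (-((x i : ℂ) ^ 2 + (x j : ℂ) ^ 2) / 2))) := fun i _ j _ =>
    (integrable_cexp_quadratic' hb _ _).const_mul _
  have i2 : ∀ i ∈ s, ∀ j ∈ s, Integrable (fun u : ℝ => (a i * (starRingEnd ℂ) (a j)) *
      Complex.exp (-1 * (u : ℂ) ^ 2 + (-(Complex.I * ((x i : ℂ) - x j))) * u + 0)) := fun i _ j _ =>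
    (integrable_cexp_quadratic' hb _ _).const_mul _
  have c1 : Integrable (fun v : ℝ =>
      ((‖∑ i ∈ s, a i * Real.exp (-(x i - v) ^ 2 / 2)‖ ^ 2 : ℝ) : ℂ)) := by
    simp only [e1]
    exact integrable_finsetSum _ fun i hi => integrable_finsetSum _ fun j hj => i1 i hi j hj
  refine ⟨?_, ?_⟩
  · refine c1.re.congr (ae_of_all _ fun v => ?_)
    exact Complex.ofReal_re _
  · apply Complex.ofReal_injective
    rw [← integral_complex_ofReal, ← integral_complex_ofReal]
    simp only [e1, e2]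
    rw [integral_finsetSum _ fun i hi => integrable_finsetSum _ fun j hj => i1 i hi j hj,
      integral_finsetSum _ fun i hi => integrable_finsetSum _ fun j hj => i2 i hi j hj]
    refine Finset.sum_congr rfl fun i hi => ?_
    rw [integral_finsetSum _ fun j hj => i1 i hi j hj, integral_finsetSum _ fun j hj => i2 i hi j hj]
    refine Finset.sum_congr rfl fun j hj => ?_
    rw [integral_const_mul, integral_const_mul, integral_cexp_quadratic hb,
      integral_cexp_quadratic hb]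
    congr 3
    have hI : Complex.I ^ 2 = -1 := Complex.I_sq
    linear_combination (-((x i : ℂ) - x j) ^ 2 / 4) * hI

end Pool.Agent.W503.NV
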